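import Mathlib
import Pool.Agent.Helper52_Lin.Stmts

/-!
MP_e6747d_al, table lin, module E: an uncountable irreducible linear group has an element with an
eigenvalue transcendental over the prime field.
-/

set_option autoImplicit false

universe u w

namespace Pool.Agent.Lin52.H50

open Module

theorem eq_of_trace {F V : Type*} [Field F] [AddCommGroup V] [Module F V] [FiniteDimensional F V]
    (S : End F V) (h : ∀ X : End F V, LinearMap.trace F V (S * X) = 0) : S = 0 := by
  apply LinearMap.ext
  intro x
  rw [LinearMap.zero_apply, ← Module.forall_dual_apply_eq_zero_iff F]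
  intro f
  have h1 := h (f.smulRight x)
  have h2 : S * f.smulRight x = f.smulRight (S x) := by
    apply LinearMap.ext
    intro y
    simp
  rw [h2, LinearMap.trace_smulRight] at h1
  exact h1

/-- Burnside: the linear span of an irreducible group is everything -/
theorem span_eq_top {G : Type*} [Group G] {F : Type*} [Field F] [IsAlgClosed F] {V : Type*}
    [AddCommGroup V] [Module F V] [FiniteDimensional F V] [Nontrivial V] (ρ : G →* End F V)
    (h : ∀ W : Submodule F V, (∀ g, ∀ x ∈ W, ρ g x ∈ W) → W = ⊥ ∨ W = ⊤) :
    Submodule.span F (Set.range ρ) = ⊤ := by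
  let A : Subalgebra F (End F V) := Algebra.adjoin F (Set.range ρ)
  have hA : Subalgebra.toSubmodule A = Submodule.span F (Set.range ρ) := by
    have h1 : (Submonoid.closure (Set.range ρ) : Set (End F V)) = Set.range ρ := by
      rw [← MonoidHom.coe_mrange, Submonoid.closure_eq]
    rw [Algebra.adjoin_eq_span, h1]
  have hsimple : IsSimpleModule A V := by
    rw [isSimpleModule_iff]
    refine { exists_pair_ne := ?_, eq_bot_or_eq_top := ?_ }
    · exact ⟨⊥, ⊤, bot_ne_top⟩
    · intro W
      have h1 := h (W.restrictScalars F) (by
        intro g x hx
        have h2 : (⟨ρ g, Algebra.subset_adjoin ⟨g, rfl⟩⟩ : A) • x ∈ W := W.smul_mem _ hx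
        exact h2)
      rcases h1 with h1 | h1
      · left
        rw [eq_bot_iff]
        intro x hx
        have h2 : x ∈ W.restrictScalars F := hx
        rw [h1] at h2
        exact h2
      · right
        rw [eq_top_iff]
        intro x _
        have h2 : x ∈ W.restrictScalars F := by
          rw [h1]
          trivial
        exact h2
  have hbij := IsSimpleModule.algebraMap_end_bijective_of_isAlgClosed (A := A) (V := V) F
  have hfin : Module.Finite (End A V) V := by
    obtain ⟨s, hs⟩ := (inferInstance : Module.Finite F V).fg_top
    refine ⟨⟨s, ?_⟩⟩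
    rw [eq_top_iff]
    intro x _
    have h1 : x ∈ Submodule.span F (s : Set V) := by
      rw [hs]
      trivial
    induction h1 using Submodule.span_induction with
    | mem y hy => exact Submodule.subset_span hy
    | zero => exact Submodule.zero_mem _
    | add y z _ _ hy hz => exact Submodule.add_mem _ (hy trivial) (hz trivial)
    | smul c y _ hy =>
      have h2 := Submodule.smul_mem _ (algebraMap F (End A V) c) (hy trivial)
      exact h2
  rw [← hA, eq_top_iff]
  intro T _
  let T' : End (End A V) V :=
    { toFun := T
      map_add' := T.map_add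
      map_smul' := by
        intro f x
        obtain ⟨c, rfl⟩ := hbij.2 f
        show T (c • x) = c • T x
        exact T.map_smul c x }
  obtain ⟨a, ha⟩ := Module.Finite.toModuleEnd_moduleEnd_surjective (R := A) (M := V) T'
  have h3 : (a : End F V) = T := by
    apply LinearMap.ext
    intro x
    exact DFunLike.congr_fun ha x
  rw [← h3]
  exact a.2

theorem countable_prime (F : Type*) [Field F] : Countable (⊥ : Subfield F) := by
  have h1 := Subfield.cardinalMk_closure_le_max (α := F) (∅ : Set F)
  rw [Subfield.closure_empty] at h1
  rw [← Cardinal.mk_le_aleph0_iff]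
  refine h1.trans ?_
  simp

theorem trs : TrsStmt.{u, w} := by
  intro G _ F _ _ V _ _ _ _ ρ hirr hunc
  by_contra hcon
  push Not at hcon
  apply hunc
  have hc := countable_prime F
  let A : Set F := {x | IsAlgebraic (⊥ : Subfield F) x}
  have hA : A.Countable := Algebraic.countable (⊥ : Subfield F) F
  have htr : ∀ g : G, LinearMap.trace F V (ρ g) ∈ A := by
    intro g
    rw [Module.End.trace_eq_sum_roots_charpoly_of_splits (IsAlgClosed.splits _)]
    have h1 : ∀ α ∈ (ρ g).charpoly.roots, IsAlgebraic (⊥ : Subfield F) α := by
      intro α hα
      have h2 : (ρ g).HasEigenvalue α := by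
        rw [Module.End.hasEigenvalue_iff_isRoot_charpoly]
        exact Polynomial.isRoot_of_mem_roots hα
      have h3 := hcon g α h2
      rw [Transcendental, not_not] at h3
      exact h3
    show IsAlgebraic (⊥ : Subfield F) _
    have h4 : ∀ s : Multiset F, (∀ α ∈ s, IsAlgebraic (⊥ : Subfield F) α) →
        IsAlgebraic (⊥ : Subfield F) s.sum := by
      intro s
      induction s using Multiset.induction_on with
      | empty =>
        intro _
        rw [Multiset.sum_zero]
        exact isAlgebraic_zero
      | cons a s ih =>
        intro hs
        rw [Multiset.sum_cons]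
        exact (hs a (Multiset.mem_cons_self a s)).add
          (ih fun α hα => hs α (Multiset.mem_cons_of_mem hα))
    exact h4 _ h1
  obtain ⟨b, hb, hspan, hlin⟩ := exists_linearIndependent F (Set.range ρ)
  rw [span_eq_top ρ hirr] at hspan
  have hfin : b.Finite := hlin.setFinite
  have hinj : Set.InjOn (fun (T : End F V) (x : b) => LinearMap.trace F V (T * x))
      (Set.range ρ) := by
    intro S _ T _ hST
    have h1 : S - T = 0 := by
      apply eq_of_trace
      intro X
      have hX : X ∈ Submodule.span F b := by
        rw [hspan]
        trivial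
      induction hX using Submodule.span_induction with
      | mem y hy =>
        have h2 := congrFun hST ⟨y, hy⟩
        have h3 : LinearMap.trace F V (S * y) = LinearMap.trace F V (T * y) := h2
        rw [sub_mul, map_sub, h3, sub_self]
      | zero => rw [mul_zero, map_zero]
      | add y z _ _ hy hz => rw [mul_add, map_add, hy, hz, add_zero]
      | smul c y _ hy => rw [mul_smul_comm, map_smul, hy, smul_zero]
    exact sub_eq_zero.mp h1
  apply Set.countable_of_injective_of_countable_image hinj
  have : Finite b := hfin
  have h5 : (Set.pi Set.univ fun _ : b => A).Countable := Set.countable_univ_pi fun _ => hA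
  apply h5.mono
  rintro _ ⟨_, ⟨g, rfl⟩, rfl⟩ x _
  obtain ⟨g', hg'⟩ := hb x.2
  show LinearMap.trace F V (ρ g * x) ∈ A
  rw [← hg', ← map_mul]
  exact htr _

end Pool.Agent.Lin52.H50
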